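import Pool.Agent.Q91.CritMain

/-!
# A disconnected compact set with four points on which critically constrained polynomials are dense

For `X = {-2,-1,1,2}` every continuous function on `X` is a uniform limit on `X` of real
polynomials all of whose (complex) critical points lie in `X`: `CP(X) = C(X)`.
-/

open Polynomial Set

namespace Pool.Agent.Results.MP_57aba6_an.FourPoints

/-- All critical points of `p`, i.e. all complex zeros of `p'`, lie in `X`. -/
def CriticalPointsIn (X : Set ℝ) (p : ℝ[X]) : Prop :=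
  ∀ z : ℂ, aeval z (derivative p) = 0 → ∃ x ∈ X, z = (x : ℂ)

/-- `CP(X)`: the continuous real functions on `X` that are uniform limits on `X` of real
polynomials all of whose critical points lie in `X`. -/
def CP (X : Set ℝ) : Set C(X, ℝ) :=
  {f | ∀ ε > 0, ∃ p : ℝ[X], CriticalPointsIn X p ∧ ∀ x : X, |p.eval (x : ℝ) - f x| < ε}

/-- The four point set. -/
def X4 : Set ℝ := {-2, -1, 1, 2}

theorem encard_X4 : X4.encard = 4 := by
  unfold X4
  rw [Set.encard_insert_of_notMem, Set.encard_insert_of_notMem, Set.encard_insert_of_notMem,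
    Set.encard_singleton]
  · norm_num
  · norm_num
  · norm_num
  · norm_num

theorem finite_X4 : X4.Finite := by
  unfold X4
  exact Set.toFinite _

theorem not_isPreconnected_X4 : ¬ IsPreconnected X4 := by
  intro h
  have h1 := h (Iio 0) (Ioi 0) isOpen_Iio isOpen_Ioi (by
    intro x hx
    rcases hx with rfl | rfl | rfl | rfl
    · left; norm_num
    · left; norm_num
    · right; norm_num
    · right; norm_num) ⟨-1, by unfold X4; simp, by norm_num⟩ ⟨1, by unfold X4; simp, by norm_num⟩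
  obtain ⟨x, _, hx1, hx2⟩ := h1
  exact lt_asymm (Set.mem_Iio.1 hx1) (Set.mem_Ioi.1 hx2)

theorem exists_ne (d : ℝ) {η : ℝ} (hη : 0 < η) : ∃ d' : ℝ, d' ≠ 0 ∧ |d' - d| ≤ η := by
  by_cases hd : d = 0
  · exact ⟨η, hη.ne', by rw [hd, sub_zero, abs_of_pos hη]⟩
  · exact ⟨d, hd, by rw [sub_self, abs_zero]; exact hη.le⟩

/-- Values at the four points can be prescribed approximately. -/
theorem exists_values (v1 v2 v3 v4 : ℝ) {ε : ℝ} (hε : 0 < ε) :
    ∃ p : ℝ[X], CriticalPointsIn X4 p ∧ |p.eval (-2) - v1| < ε ∧ |p.eval (-1) - v2| < ε ∧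
      |p.eval 1 - v3| < ε ∧ |p.eval 2 - v4| < ε := by
  obtain ⟨d1, h1, h1'⟩ := exists_ne (v2 - v1) (by linarith : 0 < ε / 8)
  obtain ⟨d2, h2, h2'⟩ := exists_ne (v3 - v2) (by linarith : 0 < ε / 8)
  obtain ⟨d3, h3, h3'⟩ := exists_ne (v4 - v3) (by linarith : 0 < ε / 8)
  obtain ⟨p, hp, e1, e2, e3⟩ := Pool.Agent.Q91.CritMain.exists_diff h1 h2 h3
    (by linarith : 0 < ε / 8)
  have hX : ∀ z : ℂ, (z = -2 ∨ z = -1 ∨ z = 1 ∨ z = 2) → ∃ x ∈ X4, z = (x : ℂ) := by
    intro z hz
    unfold X4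
    rcases hz with rfl | rfl | rfl | rfl
    · exact ⟨-2, by simp, by push_cast; rfl⟩
    · exact ⟨-1, by simp, by push_cast; rfl⟩
    · exact ⟨1, by simp, by push_cast; rfl⟩
    · exact ⟨2, by simp, by push_cast; rfl⟩
  rw [abs_lt] at e1 e3
  rw [abs_le] at h1' h2' h3'
  refine ⟨p + C (v2 - p.eval (-1)), ?_, ?_, ?_, ?_, ?_⟩
  · intro z hz
    rw [derivative_add, derivative_C, add_zero] at hz
    exact hX z (hp z hz)
  all_goals
    simp only [eval_add, eval_C]
    rw [abs_lt]
    constructor <;> linarith [e1.1, e1.2, e3.1, e3.2, h1'.1, h1'.2, h2'.1, h2'.2, h3'.1, h3'.2]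

/-- **Negative answer to Q2.** The set `X = {-2,-1,1,2}` is compact, disconnected and has more
than three points, and `CP(X) = C(X)`. -/
theorem result : IsCompact X4 ∧ ¬ IsConnected X4 ∧ 3 < X4.encard ∧ CP X4 = Set.univ := by
  refine ⟨finite_X4.isCompact, fun h => not_isPreconnected_X4 h.isPreconnected, ?_, ?_⟩
  · rw [encard_X4]
    norm_num
  · refine Set.eq_univ_of_forall fun f => ?_
    intro ε hε
    have m1 : (-2 : ℝ) ∈ X4 := by unfold X4; simp
    have m2 : (-1 : ℝ) ∈ X4 := by unfold X4; simp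
    have m3 : (1 : ℝ) ∈ X4 := by unfold X4; simp
    have m4 : (2 : ℝ) ∈ X4 := by unfold X4; simp
    obtain ⟨p, hp, e1, e2, e3, e4⟩ := exists_values (f ⟨-2, m1⟩) (f ⟨-1, m2⟩) (f ⟨1, m3⟩)
      (f ⟨2, m4⟩) hε
    refine ⟨p, hp, ?_⟩
    rintro ⟨x, hx⟩
    have hx' := hx
    rcases hx' with rfl | rfl | rfl | rfl
    · exact e1
    · exact e2
    · exact e3
    · exact e4

end Pool.Agent.Results.MP_57aba6_an.FourPoints
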